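import Pool.Agent.P.MP_c9188c_gt.IPos

namespace Pool.Agent.Results.MP_c9188c_gt.Independent

open Pool.Agent.Lib.Helper87 Pool.Agent.P.MP_6e1b89_gt Pool.Agent.P.MP_c9188c_gt

/-- In the sense of `M`, every compact Hausdorff Radon space is sequential. -/
def Q1In (M : Set ZFSet.{0}) : Prop :=
  ∀ (X : Type) (c : X → ZFSet.{0}) (𝒯 : Set (Set X)), Function.Injective c →
    cSet c Set.univ ∈ M → cSet (cSet c) 𝒯 ∈ M → HausdorffIn M c 𝒯 →
    CompactIn M c 𝒯 Set.univ → RadonIn M c 𝒯 → SequentialIn M c 𝒯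

/-- The statement that every compact Radon space is sequential holds in some transitive model of
ZFC and fails in another one. -/
theorem result : (∃ M : Set ZFSet.{0}, TransModelZFC M ∧ Q1In M) ∧
    ∃ M : Set ZFSet.{0}, TransModelZFC M ∧ ¬ Q1In M :=
  ⟨Pos.pos, let ⟨M, h, X, c, 𝒯, h1, h2, h3, h4, h5, h6, h7⟩ := main
    ⟨M, h, fun H => h7 (H X c 𝒯 h1 h2 h3 h4 h5 h6)⟩⟩

end Pool.Agent.Results.MP_c9188c_gt.Independent
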