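import Pool.Agent.P.MP_c9188c_gt.RI.Lift

set_option autoImplicit false

namespace Pool.Agent.Results.MP_c9188c_gt.RadonImage

open MeasureTheory

universe u v

/-- The image of a Radon space under a perfect map is a Radon space. -/
theorem result :
    ∀ (X : Type u) [TopologicalSpace X] [T2Space X] [MeasurableSpace X] [BorelSpace X]
      (Y : Type v) [TopologicalSpace Y] [T2Space Y] [MeasurableSpace Y] [BorelSpace Y]
      (f : X → Y), Continuous f → Function.Surjective f → IsClosedMap f →
      (∀ y, IsCompact (f ⁻¹' {y})) →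
      (∀ μ : Measure X, IsFiniteMeasure μ → μ.InnerRegular) →
      ∀ ν : Measure Y, IsFiniteMeasure ν → ν.InnerRegular := by
  intro X _ _ _ _ Y _ _ _ _ f h1 h2 h3 h4 h ν _
  obtain ⟨μ, h5, rfl⟩ := P.MP_c9188c_gt.RI.lift (μ := ν)
    (isProperMap_iff_isClosedMap_and_compact_fibers.2 ⟨h1, h3, h4⟩) h2
  have := h μ h5
  exact Measure.InnerRegular.map_of_continuous h1

end Pool.Agent.Results.MP_c9188c_gt.RadonImage
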